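import Pool.Agent.H48.RN.Stmts3

/-!
# Project RN, module PRC: the number of monic irreducible polynomials
-/

set_option autoImplicit false

namespace Pool.RN

open Polynomial

theorem s_PRC (F : Type) [Field F] [Fintype F] (hCRD : S_CRD F) (hLGB : S_LGB F) : S_PRC F := by
  have h1 : CMul (fun _ : F[X] => (1 : ℂ)) := ⟨rfl, fun _ _ => (one_mul 1).symm⟩
  have hb : ∀ n, bb (fun _ : F[X] => (1 : ℂ)) n = (Fintype.card F : ℂ) ^ n := fun n => by
    rw [bb, Finset.sum_const, hCRD.1 n, nsmul_eq_mul, mul_one]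
    push_cast; rfl
  have ha : ∀ n, aa (fun _ : F[X] => (1 : ℂ)) n =
      ((∑ d ∈ n.divisors, d * (Irr F d).card : ℕ) : ℂ) := fun n => by
    rw [aa]
    push_cast
    refine Finset.sum_congr rfl fun d _ => ?_
    simp [mul_comm]
  have key : ∀ n, 1 ≤ n → aa (fun _ : F[X] => (1 : ℂ)) n = (Fintype.card F : ℂ) ^ n := by
    intro n
    induction n using Nat.strong_induction_on with
    | _ n ih =>
      intro hn
      have h2 := hLGB _ h1 n
      obtain ⟨k, rfl⟩ : ∃ k, n = k + 1 := ⟨n - 1, by omega⟩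
      rw [Finset.sum_Icc_succ_top (by omega)] at h2
      simp only [hb, Nat.sub_self, pow_zero, mul_one] at h2
      have h3 : ∑ j ∈ Finset.Icc 1 k, aa (fun _ : F[X] => (1 : ℂ)) j *
          (Fintype.card F : ℂ) ^ (k + 1 - j) = k * (Fintype.card F : ℂ) ^ (k + 1) := by
        have h4 : ∀ j ∈ Finset.Icc 1 k, aa (fun _ : F[X] => (1 : ℂ)) j *
            (Fintype.card F : ℂ) ^ (k + 1 - j) = (Fintype.card F : ℂ) ^ (k + 1) := by
          intro j hj
          have hj' := Finset.mem_Icc.1 hj
          rw [ih j (by omega) hj'.1, ← pow_add]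
          congr 1; omega
        rw [Finset.sum_congr rfl h4, Finset.sum_const, Nat.card_Icc, nsmul_eq_mul]
        simp
      rw [h3] at h2
      push_cast at h2
      linear_combination -h2
  intro j hj
  have h2 := key j hj
  rw [ha] at h2
  exact_mod_cast h2

end Pool.RN
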