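import Pool.Agent.H48.RN.Stmts3

/-!
# Project RN, module AVG: the average over the whole family
-/

set_option autoImplicit false

namespace Pool.RN

open Polynomial

section

variable {F : Type} [Field F] [Fintype F]

/-- the curve with given coefficients -/
noncomputable def AVG_e (p : (F[X] × F[X] × F[X]) × (F[X] × F[X])) : WeierstrassCurve F[X] :=
  WeierstrassCurve.mk p.1.1 p.1.2.1 p.1.2.2 p.2.1 p.2.2

omit [Fintype F] in
theorem AVG_inj : Function.Injective (AVG_e (F := F)) := by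
  rintro ⟨⟨a, b, c⟩, d, e⟩ ⟨⟨a', b', c'⟩, d', e'⟩ h
  simp only [AVG_e, WeierstrassCurve.mk.injEq] at h
  obtain ⟨rfl, rfl, rfl, rfl, rfl⟩ := h
  rfl

variable (F) in
/-- the triples `(a1, a2, a3)` -/
noncomputable def AVG_S (n : ℕ) : Finset (F[X] × F[X] × F[X]) :=
  Pol F n ×ˢ (Pol F (2 * n) ×ˢ Pol F (3 * n))

variable (F) in
open Classical in
/-- the family as a finite set -/
noncomputable def AVG_T (n : ℕ) : Finset ((F[X] × F[X] × F[X]) × (F[X] × F[X])) :=
  (AVG_S F n ×ˢ (Pol F (4 * n) ×ˢ Pol F (6 * n))).filter (fun p => AVG_e p ∈ Fam F n)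

theorem AVG_img (n : ℕ) (P : WeierstrassCurve F[X] → Prop) [DecidablePred fun p => P (AVG_e p)] :
    {W ∈ Fam F n | P W} = AVG_e '' (((AVG_T F n).filter (fun p => P (AVG_e p)) :
      Finset ((F[X] × F[X] × F[X]) × (F[X] × F[X]))) :
        Set ((F[X] × F[X] × F[X]) × (F[X] × F[X]))) := by
  classical
  ext W
  constructor
  · rintro ⟨hW, hP⟩
    refine ⟨((W.a₁, W.a₂, W.a₃), (W.a₄, W.a₆)), ?_, rfl⟩
    rw [Finset.mem_coe, Finset.mem_filter]
    refine ⟨?_, hP⟩
    rw [AVG_T, Finset.mem_filter]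
    refine ⟨?_, hW⟩
    obtain ⟨h1, h2, h3, h4, h6, -⟩ := hW
    rw [Finset.mem_product, AVG_S, Finset.mem_product, Finset.mem_product, Finset.mem_product]
    exact ⟨⟨mem_Pol.2 h1, mem_Pol.2 h2, mem_Pol.2 h3⟩, mem_Pol.2 h4, mem_Pol.2 h6⟩
  · rintro ⟨p, hp, rfl⟩
    rw [Finset.mem_coe, Finset.mem_filter, AVG_T, Finset.mem_filter] at hp
    exact ⟨hp.1.2, hp.2⟩

theorem AVG_card (n : ℕ) (P : WeierstrassCurve F[X] → Prop) [DecidablePred fun p => P (AVG_e p)] :
    ({W ∈ Fam F n | P W}).Finite ∧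
    ({W ∈ Fam F n | P W}).ncard = ((AVG_T F n).filter (fun p => P (AVG_e p))).card := by
  rw [AVG_img n P]
  refine ⟨(Finset.finite_toSet _).image _, ?_⟩
  rw [Set.ncard_image_of_injective _ AVG_inj, Set.ncard_coe_finset]

omit [Fintype F] in
theorem AVG_root (n : ℕ) (W : WeierstrassCurve F[X]) :
    rootNumber n W = 1 ∨ rootNumber n W = -1 := neg_one_pow_eq_or ℤ _

open Classical in
theorem AVG_fib (n : ℕ) (f : (F[X] × F[X] × F[X]) × (F[X] × F[X]) → ℝ) :
    ∑ p ∈ AVG_T F n, f p = ∑ a ∈ AVG_S F n, ∑ b ∈ Fib n a.1 a.2.1 a.2.2, f (a, b) := by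
  rw [AVG_T, Finset.sum_filter, Finset.sum_product]
  refine Finset.sum_congr rfl fun a _ => ?_
  rw [Fib, Finset.sum_filter]
  rfl

omit [Fintype F] in
theorem AVG_ne (n : ℕ) (hn : 1 ≤ n) : (Fam F n).Nonempty := by
  have hX : ∀ m : ℕ, (X ^ m : F[X]).natDegree = m := fun m => natDegree_X_pow m
  by_cases h3 : (3 : F) = 0
  · have h30 : (3 : F[X]) = 0 := by
      have h := congrArg (C : F → F[X]) h3
      rw [C_0] at h
      exact h
    refine ⟨⟨X ^ n, 0, 0, 1, 0⟩, ?_⟩
    have hc : (⟨X ^ n, 0, 0, 1, 0⟩ : WeierstrassCurve F[X]).c₄ = X ^ (4 * n) := by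
      simp only [WeierstrassCurve.c₄, WeierstrassCurve.b₂, WeierstrassCurve.b₄]
      rw [pow_mul']
      linear_combination (-16 : F[X]) * h30
    have hD : (⟨X ^ n, 0, 0, 1, 0⟩ : WeierstrassCurve F[X]).Δ = X ^ (4 * n) - 1 := by
      simp only [WeierstrassCurve.Δ, WeierstrassCurve.b₂, WeierstrassCurve.b₄,
        WeierstrassCurve.b₆, WeierstrassCurve.b₈]
      rw [pow_mul']
      linear_combination (-21 : F[X]) * h30
    refine ⟨(hX n).le, by simp, by simp, by simp, by simp, ?_, ?_⟩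
    · rw [hc, hD]
      exact ⟨1, -1, by ring⟩
    · rw [hc, coeff_X_pow, if_pos rfl]
      exact one_ne_zero
  · refine ⟨⟨X ^ n, 0, 1, 0, 0⟩, ?_⟩
    have hc : (⟨X ^ n, 0, 1, 0, 0⟩ : WeierstrassCurve F[X]).c₄ = X ^ (4 * n) - C 24 * X ^ n := by
      simp only [WeierstrassCurve.c₄, WeierstrassCurve.b₂, WeierstrassCurve.b₄]
      rw [pow_mul']
      have : (C 24 : F[X]) = 24 := rfl
      rw [this]
      ring
    have hD : (⟨X ^ n, 0, 1, 0, 0⟩ : WeierstrassCurve F[X]).Δ = X ^ n * (X ^ n * X ^ n) - C 27 := by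
      simp only [WeierstrassCurve.Δ, WeierstrassCurve.b₂, WeierstrassCurve.b₄,
        WeierstrassCurve.b₆, WeierstrassCurve.b₈]
      have : (C 27 : F[X]) = 27 := rfl
      rw [this]
      ring
    have h27 : (27 : F) ≠ 0 := by
      intro h
      apply h3
      have : (3 : F) ^ 3 = 0 := by linear_combination h
      exact pow_eq_zero_iff (three_ne_zero) |>.1 this
    refine ⟨(hX n).le, by simp, by simp, by simp, by simp, ?_, ?_⟩
    · rw [hc, hD]
      have e1 : (X ^ (4 * n) - C 24 * X ^ n : F[X]) = X ^ n * (X ^ n * (X ^ n * X ^ n) - C 24) := by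
        rw [pow_mul']; ring
      rw [e1]
      refine IsCoprime.mul_left ?_ ?_
      · refine ⟨C (27⁻¹) * (X ^ n * X ^ n), -C (27⁻¹), ?_⟩
        have h5 : (C (27⁻¹) * C 27 : F[X]) = 1 := by
          rw [← C_mul, inv_mul_cancel₀ h27, C_1]
        linear_combination h5
      · refine ⟨C (3⁻¹), -C (3⁻¹), ?_⟩
        have h5 : (C (3⁻¹) * (C 27 - C 24) : F[X]) = 1 := by
          rw [← C_sub, ← C_mul]
          have : (3 : F)⁻¹ * (27 - 24) = 1 := by
            have : (27 : F) - 24 = 3 := by norm_num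
            rw [this, inv_mul_cancel₀ h3]
          rw [this, C_1]
        linear_combination h5
    · rw [hc, coeff_sub, coeff_X_pow, if_pos rfl, coeff_C_mul, coeff_X_pow, if_neg (by omega)]
      simp

end

theorem s_AVG (F : Type) [Field F] [Fintype F] : S_AVG F := by
  classical
  intro θ hθ ε hε
  obtain ⟨C, hC, hfib⟩ := hθ ε hε
  refine ⟨C, hC, fun n hn => ?_⟩
  have h0 := AVG_card (F := F) n (fun _ => True)
  have hset : {W ∈ Fam F n | True} = Fam F n := by simp
  rw [hset] at h0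
  have hT : (AVG_T F n).filter (fun _ => True) = AVG_T F n := Finset.filter_true_of_mem
    fun _ _ => trivial
  rw [hT] at h0
  refine ⟨h0.1, ?_, ?_⟩
  · exact (Set.ncard_pos h0.1).2 (AVG_ne n hn)
  · rw [h0.2, (AVG_card n (fun W => rootNumber n W = 1)).2,
      (AVG_card n (fun W => rootNumber n W = -1)).2]
    have h1 : (((AVG_T F n).filter (fun p => rootNumber n (AVG_e p) = 1)).card : ℝ) -
        ((AVG_T F n).filter (fun p => rootNumber n (AVG_e p) = -1)).card =
        ∑ p ∈ AVG_T F n, (rootNumber n (AVG_e p) : ℝ) := by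
      rw [Finset.card_filter, Finset.card_filter]
      push_cast
      rw [← Finset.sum_sub_distrib]
      refine Finset.sum_congr rfl fun p _ => ?_
      rcases AVG_root n (AVG_e p) with h | h
      · rw [h]; norm_num
      · rw [h]; norm_num
    rw [h1, AVG_fib]
    refine (Finset.abs_sum_le_sum_abs _ _).trans ?_
    have h2 : ((AVG_T F n).card : ℝ) =
        ∑ a ∈ AVG_S F n, ((Fib n a.1 a.2.1 a.2.2).card : ℝ) := by
      have := AVG_fib (F := F) n (fun _ => 1)
      simpa using this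
    rw [h2, Finset.mul_sum]
    exact Finset.sum_le_sum fun a _ => hfib n a.1 a.2.1 a.2.2 hn

end Pool.RN
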