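import Pool.Agent.H48.RN.Stmts3

/-!
# Project RN, module EXB: the exponent is small
-/

set_option autoImplicit false

namespace Pool.RN

theorem s_EXB : S_EXB := by
  intro q ε hq hε
  have hq1 : (1 : ℝ) < q := by exact_mod_cast hq
  have hq0 : (0 : ℝ) < q := by linarith
  set r : ℝ := (q : ℝ) ^ (-(1 / 2 + ε)) with hr
  have hr0 : 0 < r := Real.rpow_pos_of_pos hq0 _
  set ρ : ℝ := Real.sqrt q * r with hρ
  have hρ0 : 0 < ρ := mul_pos (Real.sqrt_pos.2 hq0) hr0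
  have hρ1 : ρ < 1 := by
    rw [hρ, hr, Real.sqrt_eq_rpow, ← Real.rpow_add hq0]
    exact Real.rpow_lt_one_of_one_lt_of_neg hq1 (by linarith)
  have hlog : 0 < ε * Real.log q := mul_pos hε (Real.log_pos hq1)
  obtain ⟨s, hs⟩ := summable_iff_vanishing_norm.1 (summable_geometric_of_lt_one hρ0.le hρ1)
    (ε * Real.log q) hlog
  refine ⟨∑ j ∈ s, (q : ℝ) ^ j * r ^ j, fun m N => ?_⟩
  have hterm1 : ∀ j ∈ Finset.Icc 1 N ∩ s,
      min ((q : ℝ) ^ j) (m * Real.sqrt q ^ j) * r ^ j / j ≤ (q : ℝ) ^ j * r ^ j := by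
    intro j hj
    have hj1 : 1 ≤ j := (Finset.mem_Icc.1 (Finset.mem_inter.1 hj).1).1
    have hj2 : (1 : ℝ) ≤ j := by exact_mod_cast hj1
    refine (div_le_self ?_ hj2).trans ?_
    · exact mul_nonneg (le_min (pow_nonneg hq0.le j)
        (mul_nonneg (Nat.cast_nonneg m) (pow_nonneg (Real.sqrt_nonneg _) j))) (pow_nonneg hr0.le j)
    · exact mul_le_mul_of_nonneg_right (min_le_left _ _) (pow_nonneg hr0.le j)
  have hterm2 : ∀ j ∈ Finset.Icc 1 N \ s,
      min ((q : ℝ) ^ j) (m * Real.sqrt q ^ j) * r ^ j / j ≤ m * ρ ^ j := by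
    intro j hj
    have hj1 : 1 ≤ j := (Finset.mem_Icc.1 (Finset.mem_sdiff.1 hj).1).1
    have hj2 : (1 : ℝ) ≤ j := by exact_mod_cast hj1
    refine (div_le_self ?_ hj2).trans ?_
    · exact mul_nonneg (le_min (pow_nonneg hq0.le j)
        (mul_nonneg (Nat.cast_nonneg m) (pow_nonneg (Real.sqrt_nonneg _) j))) (pow_nonneg hr0.le j)
    · refine (mul_le_mul_of_nonneg_right (min_le_right _ _) (pow_nonneg hr0.le j)).trans
        (le_of_eq ?_)
      rw [hρ, mul_pow]; ring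
  have h1 : ∑ j ∈ Finset.Icc 1 N ∩ s, min ((q : ℝ) ^ j) (m * Real.sqrt q ^ j) * r ^ j / j ≤
      ∑ j ∈ s, (q : ℝ) ^ j * r ^ j :=
    (Finset.sum_le_sum hterm1).trans (Finset.sum_le_sum_of_subset_of_nonneg
      Finset.inter_subset_right fun j _ _ => mul_nonneg (pow_nonneg hq0.le j)
        (pow_nonneg hr0.le j))
  have h2 : ∑ j ∈ Finset.Icc 1 N \ s, min ((q : ℝ) ^ j) (m * Real.sqrt q ^ j) * r ^ j / j ≤
      ε * m * Real.log q := by
    refine (Finset.sum_le_sum hterm2).trans ?_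
    rw [← Finset.mul_sum]
    have h3 := hs (Finset.Icc 1 N \ s) Finset.sdiff_disjoint
    rw [Real.norm_eq_abs] at h3
    have h4 : ∑ j ∈ Finset.Icc 1 N \ s, ρ ^ j ≤ ε * Real.log q := (le_abs_self _).trans h3.le
    calc (m : ℝ) * ∑ j ∈ Finset.Icc 1 N \ s, ρ ^ j ≤ m * (ε * Real.log q) :=
          mul_le_mul_of_nonneg_left h4 (Nat.cast_nonneg m)
      _ = ε * m * Real.log q := by ring
  have h5 := Finset.sum_inter_add_sum_sdiff (Finset.Icc 1 N) s
    (fun j => min ((q : ℝ) ^ j) (m * Real.sqrt q ^ j) * r ^ j / j)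
  rw [← h5]
  exact add_le_add h1 h2

end Pool.RN
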