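import Pool.Agent.H48.RN.Stmts3

/-!
# Project RN, module MAJ: majorant lemma
-/

set_option autoImplicit false

namespace Pool.RN

theorem MAJ_conv (x B : ℕ → ℝ) (hx : ∀ n, 0 ≤ x n) (hB : ∀ j, 1 ≤ j → 0 ≤ B j)
    (h : ∀ n : ℕ, (n : ℝ) * x n ≤ ∑ j ∈ Finset.Icc 1 n, B j * x (n - j)) (N : ℕ) (z : ℝ)
    (hz : 0 < z) : ∑ n ∈ Finset.range (N + 1), (n : ℝ) * x n * z ^ n ≤
      (∑ j ∈ Finset.Icc 1 N, B j * z ^ j) * ∑ n ∈ Finset.range (N + 1), x n * z ^ n := by
  have h1 : ∑ n ∈ Finset.range (N + 1), (n : ℝ) * x n * z ^ n ≤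
      ∑ n ∈ Finset.range (N + 1), ∑ j ∈ Finset.Icc 1 n, (B j * z ^ j) * (x (n - j) * z ^ (n - j)) := by
    refine Finset.sum_le_sum fun n _ => ?_
    have h2 : ∑ j ∈ Finset.Icc 1 n, (B j * z ^ j) * (x (n - j) * z ^ (n - j)) =
        (∑ j ∈ Finset.Icc 1 n, B j * x (n - j)) * z ^ n := by
      rw [Finset.sum_mul]
      refine Finset.sum_congr rfl fun j hj => ?_
      have hj' := Finset.mem_Icc.1 hj
      have : z ^ n = z ^ j * z ^ (n - j) := by rw [← pow_add]; congr 1; omega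
      rw [this]; ring
    rw [h2]
    exact mul_le_mul_of_nonneg_right (h n) (pow_nonneg hz.le n)
  refine h1.trans ?_
  have h3 : ∑ n ∈ Finset.range (N + 1), ∑ j ∈ Finset.Icc 1 n,
      (B j * z ^ j) * (x (n - j) * z ^ (n - j)) = ∑ j ∈ Finset.Icc 1 N, ∑ n ∈ Finset.Icc j N,
      (B j * z ^ j) * (x (n - j) * z ^ (n - j)) := by
    refine Finset.sum_comm' fun n j => ?_
    simp only [Finset.mem_range, Finset.mem_Icc]
    omega
  rw [h3, Finset.sum_mul]
  refine Finset.sum_le_sum fun j hj => ?_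
  have hj' := Finset.mem_Icc.1 hj
  rw [← Finset.mul_sum]
  refine mul_le_mul_of_nonneg_left ?_ (mul_nonneg (hB j hj'.1) (pow_nonneg hz.le j))
  have h4 : ∑ n ∈ Finset.Icc j N, x (n - j) * z ^ (n - j) =
      ∑ k ∈ (Finset.Icc j N).image (fun n => n - j), x k * z ^ k := by
    rw [Finset.sum_image]
    intro a ha b hb hab
    have ha' := Finset.mem_Icc.1 (Finset.mem_coe.1 ha)
    have hb' := Finset.mem_Icc.1 (Finset.mem_coe.1 hb)
    simp only at hab
    omega
  rw [h4]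
  refine Finset.sum_le_sum_of_subset_of_nonneg ?_ fun k _ _ =>
    mul_nonneg (hx k) (pow_nonneg hz.le k)
  intro k hk
  obtain ⟨n, hn, rfl⟩ := Finset.mem_image.1 hk
  have hn' := Finset.mem_Icc.1 hn
  rw [Finset.mem_range]; omega

theorem MAJ_main (x B : ℕ → ℝ) (hx : ∀ n, 0 ≤ x n) (hx0 : x 0 = 1) (hB : ∀ j, 1 ≤ j → 0 ≤ B j)
    (h : ∀ n : ℕ, (n : ℝ) * x n ≤ ∑ j ∈ Finset.Icc 1 n, B j * x (n - j)) (N : ℕ) :
    x N ≤ Real.exp (∑ j ∈ Finset.Icc 1 N, B j / j) := by
  set f : ℝ → ℝ := fun z => ∑ n ∈ Finset.range (N + 1), x n * z ^ n with hf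
  set g : ℝ → ℝ := fun z => ∑ j ∈ Finset.Icc 1 N, B j / j * z ^ j with hg
  have hf' : ∀ z, HasDerivAt f (∑ n ∈ Finset.range (N + 1), x n * (n * z ^ (n - 1))) z :=
    fun z => HasDerivAt.fun_sum fun n _ => (hasDerivAt_pow n z).const_mul _
  have hg' : ∀ z, HasDerivAt g (∑ j ∈ Finset.Icc 1 N, B j / j * (j * z ^ (j - 1))) z :=
    fun z => HasDerivAt.fun_sum fun n _ => (hasDerivAt_pow n z).const_mul _
  have hF : ∀ z, HasDerivAt (fun z => f z * Real.exp (-g z))
      ((∑ n ∈ Finset.range (N + 1), x n * (n * z ^ (n - 1))) * Real.exp (-g z) +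
        f z * (Real.exp (-g z) * -(∑ j ∈ Finset.Icc 1 N, B j / j * (j * z ^ (j - 1))))) z :=
    fun z => (hf' z).mul (hg' z).neg.exp
  have hanti : AntitoneOn (fun z => f z * Real.exp (-g z)) (Set.Icc 0 1) := by
    refine antitoneOn_of_deriv_nonpos (convex_Icc 0 1)
      (fun z _ => (hF z).continuousAt.continuousWithinAt)
      (fun z _ => (hF z).differentiableAt.differentiableWithinAt) fun z hz => ?_
    rw [interior_Icc] at hz
    rw [(hF z).deriv]
    have hz0 : 0 < z := hz.1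
    have h1 := MAJ_conv x B hx hB h N z hz0
    have e1 : ∑ n ∈ Finset.range (N + 1), (n : ℝ) * x n * z ^ n =
        z * ∑ n ∈ Finset.range (N + 1), x n * (n * z ^ (n - 1)) := by
      rw [Finset.mul_sum]
      refine Finset.sum_congr rfl fun n _ => ?_
      rcases Nat.eq_zero_or_pos n with rfl | hn
      · simp
      · have : z ^ n = z * z ^ (n - 1) := by rw [← pow_succ']; congr 1; omega
        rw [this]; ring
    have e2 : ∑ j ∈ Finset.Icc 1 N, B j * z ^ j =
        z * ∑ j ∈ Finset.Icc 1 N, B j / j * (j * z ^ (j - 1)) := by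
      rw [Finset.mul_sum]
      refine Finset.sum_congr rfl fun n hn => ?_
      have hn1 := (Finset.mem_Icc.1 hn).1
      have hn0 : (n : ℝ) ≠ 0 := by positivity
      have : z ^ n = z * z ^ (n - 1) := by rw [← pow_succ']; congr 1; omega
      rw [this]; field_simp
    rw [e1, e2, mul_assoc] at h1
    have h2 := le_of_mul_le_mul_left h1 hz0
    have h3 : (∑ n ∈ Finset.range (N + 1), x n * (n * z ^ (n - 1))) * Real.exp (-g z) +
        f z * (Real.exp (-g z) * -(∑ j ∈ Finset.Icc 1 N, B j / j * (j * z ^ (j - 1)))) =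
        Real.exp (-g z) * ((∑ n ∈ Finset.range (N + 1), x n * (n * z ^ (n - 1))) -
          (∑ j ∈ Finset.Icc 1 N, B j / j * (j * z ^ (j - 1))) * f z) := by ring
    rw [h3]
    exact mul_nonpos_of_nonneg_of_nonpos (Real.exp_pos _).le (sub_nonpos.2 h2)
  have h1 := hanti (Set.left_mem_Icc.2 zero_le_one) (Set.right_mem_Icc.2 zero_le_one) zero_le_one
  simp only at h1
  have hf0 : f 0 = 1 := by
    simp only [hf]
    rw [Finset.sum_eq_single 0]
    · simp [hx0]
    · intro n _ hn; simp [hn]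
    · intro h; simp at h
  have hg0 : g 0 = 0 := by
    simp only [hg]
    refine Finset.sum_eq_zero fun j hj => ?_
    have := (Finset.mem_Icc.1 hj).1
    rw [zero_pow (by omega)]; ring
  have hg1 : g 1 = ∑ j ∈ Finset.Icc 1 N, B j / j := by simp [hg]
  have hf1 : x N ≤ f 1 := by
    simp only [hf, one_pow, mul_one]
    exact Finset.single_le_sum (fun n _ => hx n) (Finset.self_mem_range_succ N)
  rw [hf0, hg0, hg1] at h1
  simp only [neg_zero, Real.exp_zero, mul_one] at h1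
  rw [Real.exp_neg] at h1
  have h2 := Real.exp_pos (∑ j ∈ Finset.Icc 1 N, B j / j)
  rw [← div_eq_mul_inv, div_le_iff₀ h2, one_mul] at h1
  exact hf1.trans h1

theorem s_MAJ : S_MAJ := by
  intro m a A hm0 hrec hA u N hu
  have h := MAJ_main (fun n => ‖m n‖ * u ^ n) (fun j => A j * u ^ j)
    (fun n => mul_nonneg (norm_nonneg _) (pow_nonneg hu.le n)) (by simp [hm0])
    (fun j hj => mul_nonneg ((norm_nonneg _).trans (hA j hj)) (pow_nonneg hu.le j))
    (fun n => ?_) N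
  · exact h
  · have h1 : (n : ℝ) * ‖m n‖ ≤ ∑ j ∈ Finset.Icc 1 n, A j * ‖m (n - j)‖ := by
      have h2 := congrArg norm (hrec n)
      rw [norm_mul, Complex.norm_natCast] at h2
      rw [h2]
      refine (norm_sum_le _ _).trans (Finset.sum_le_sum fun j hj => ?_)
      rw [norm_mul]
      exact mul_le_mul_of_nonneg_right (hA j (Finset.mem_Icc.1 hj).1) (norm_nonneg _)
    calc (n : ℝ) * (‖m n‖ * u ^ n) = ((n : ℝ) * ‖m n‖) * u ^ n := by ring
      _ ≤ (∑ j ∈ Finset.Icc 1 n, A j * ‖m (n - j)‖) * u ^ n :=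
        mul_le_mul_of_nonneg_right h1 (pow_nonneg hu.le n)
      _ = ∑ j ∈ Finset.Icc 1 n, A j * u ^ j * (‖m (n - j)‖ * u ^ (n - j)) := by
        rw [Finset.sum_mul]
        refine Finset.sum_congr rfl fun j hj => ?_
        have hj' := Finset.mem_Icc.1 hj
        have : u ^ n = u ^ j * u ^ (n - j) := by rw [← pow_add]; congr 1; omega
        rw [this]; ring

end Pool.RN
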