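import Pool.Agent.H48.RN.Stmts3

/-!
# Project RN, module RHB: the Riemann hypothesis for Dirichlet L-functions
-/

set_option autoImplicit false

namespace Pool.RN

open Polynomial

theorem RHB_norm {R : Type} [CommRing R] [Finite R] (χ : MulChar R ℂ) (u : R) : ‖χ u‖ ≤ 1 := by
  by_cases hu : IsUnit u
  · obtain ⟨v, rfl⟩ := hu
    have h1 : (χ (v : R)) ^ Nat.card Rˣ = 1 := by
      rw [← map_pow, ← Units.val_pow_eq_pow_val, pow_card_eq_one', Units.val_one, map_one]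
    exact (Complex.norm_eq_one_of_pow_eq_one h1 Nat.card_pos.ne').le
  · rw [χ.map_nonunit hu]; simp

theorem RHB_bb0 {F : Type} [Field F] [Fintype F] (ψ : F[X] → ℂ) (h : CMul ψ) : bb ψ 0 = 1 := by
  have h1 : Mon F 0 = {1} := by
    ext f
    rw [mem_Mon, Finset.mem_singleton]
    constructor
    · rintro ⟨h1, h2⟩
      exact (h1.natDegree_eq_zero.1 h2)
    · rintro rfl
      exact ⟨monic_one, natDegree_one⟩
  rw [bb, h1, Finset.sum_singleton, h.one]

theorem RHB_even {F k : Type} [Field F] [Fintype F] [Field k] [Algebra F k] (hPTS : S_PTS F k)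
    {M : F[X]} (hfin : Finite (AdjoinRoot M)) (hCN : S_CN1 k M) {χ : MulChar (AdjoinRoot M) ℂ}
    (hχ : χ ≠ 1) : ∃ C : ℝ, ∀ s : ℕ, 1 ≤ s → ‖aa (dir χ) (2 * s)‖ ≤ C * (Fintype.card F : ℝ) ^ s := by
  classical
  have := Fintype.ofFinite (AdjoinRoot M)
  obtain ⟨A, hA⟩ := hCN
  set h : ℕ := Nat.card (AdjoinRoot M)ˣ with hh
  have hpos : 0 < h := Nat.card_pos
  refine ⟨Fintype.card (AdjoinRoot M) * A, fun s hs => ?_⟩
  have hA0 : 0 ≤ A * (Fintype.card F : ℝ) ^ s := (abs_nonneg _).trans (hA s hs 1 isUnit_one)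
  have h1 : aa (dir χ) (2 * s) = ∑ u : AdjoinRoot M, χ u * (NN M k (2 * s) u : ℂ) := by
    rw [hPTS _ (CMul.dir χ) (2 * s) (by omega), ← Finset.sum_fiberwise (Fx F k (2 * s))
      (fun x => AdjoinRoot.mk M (nm F x (2 * s)))]
    refine Finset.sum_congr rfl fun u _ => ?_
    rw [Finset.sum_congr rfl (fun x hx => by
      rw [dir, (Finset.mem_filter.1 hx).2] : ∀ x ∈ (Fx F k (2 * s)).filter
        (fun x => AdjoinRoot.mk M (nm F x (2 * s)) = u), dir χ (nm F x (2 * s)) = χ u)]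
    rw [Finset.sum_const, nsmul_eq_mul, mul_comm]
    rfl
  have h2 : ∑ u : AdjoinRoot M, χ u = 0 := MulChar.sum_eq_zero_of_ne_one hχ
  have h3 : (h : ℂ) * aa (dir χ) (2 * s) = ∑ u : AdjoinRoot M, χ u *
      (((h : ℝ) * NN M k (2 * s) u - (Fintype.card F : ℝ) ^ (2 * s) : ℝ) : ℂ) := by
    have h4 : ∀ u : AdjoinRoot M, χ u *
      (((h : ℝ) * NN M k (2 * s) u - (Fintype.card F : ℝ) ^ (2 * s) : ℝ) : ℂ) =
        (h : ℂ) * (χ u * (NN M k (2 * s) u : ℂ)) - (Fintype.card F : ℂ) ^ (2 * s) * χ u := by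
      intro u; push_cast; ring
    simp only [h4]
    rw [Finset.sum_sub_distrib, ← Finset.mul_sum, ← Finset.mul_sum, h2, mul_zero, sub_zero, h1]
  have h5 : ‖(h : ℂ) * aa (dir χ) (2 * s)‖ ≤
      Fintype.card (AdjoinRoot M) * (A * (Fintype.card F : ℝ) ^ s) := by
    rw [h3]
    refine (norm_sum_le _ _).trans ?_
    have h6 : ∀ u ∈ (Finset.univ : Finset (AdjoinRoot M)), ‖χ u *
      (((h : ℝ) * NN M k (2 * s) u - (Fintype.card F : ℝ) ^ (2 * s) : ℝ) : ℂ)‖ ≤
        A * (Fintype.card F : ℝ) ^ s := by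
      intro u _
      rw [norm_mul, Complex.norm_real, Real.norm_eq_abs]
      by_cases hu : IsUnit u
      · exact (mul_le_of_le_one_left (abs_nonneg _) (RHB_norm χ u)).trans (hA s hs u hu)
      · rw [χ.map_nonunit hu]; simpa using hA0
    refine (Finset.sum_le_sum h6).trans (le_of_eq ?_)
    rw [Finset.sum_const, nsmul_eq_mul, Finset.card_univ]
  rw [norm_mul, Complex.norm_natCast] at h5
  have h7 : ‖aa (dir χ) (2 * s)‖ ≤ (h : ℝ) * ‖aa (dir χ) (2 * s)‖ :=
    le_mul_of_one_le_left (norm_nonneg _) (by exact_mod_cast hpos)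
  rw [mul_assoc]
  exact h7.trans h5

theorem s_RHB (F k : Type) [Field F] [Fintype F] [Field k] [Algebra F k] [IsAlgClosed k]
    [Algebra.IsAlgebraic F k] (hCNT : S_CNT F k) (hPTS : S_PTS F k) (_ : S_NMI F k)
    (hDIS : S_DIS F) (hSZR : S_SZR F) (hLGB : S_LGB F) (hNWT : S_NWT) (hPWS : S_PWS) :
    S_RHB F := by
  intro M hM hdeg χ hχ j hj
  have hM0 : M ≠ 0 := hM.ne_zero
  obtain ⟨α, hα⟩ := hNWT (bb (dir χ)) (aa (dir χ)) M.natDegree hdeg (RHB_bb0 _ (CMul.dir χ))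
    (fun n hn => hSZR M hM0 χ hχ n hn) (hLGB _ (CMul.dir χ))
  obtain ⟨C, hC⟩ := RHB_even hPTS (hDIS M hM0).1 (hCNT M hM hdeg) hχ
  have hq0 : (0 : ℝ) < Fintype.card F := by exact_mod_cast Fintype.card_pos
  have h1 : ∀ i, ‖α i‖ ≤ Real.sqrt (Fintype.card F) := by
    intro i
    have h2 := hPWS (Fin (M.natDegree - 1)) (fun i => α i ^ 2) (Fintype.card F) C hq0
      (fun s hs => by
        have h3 := hα (2 * s) (by omega)
        have h4 : ∑ i, (α i ^ 2) ^ s = -aa (dir χ) (2 * s) := by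
          rw [h3, neg_neg]
          exact Finset.sum_congr rfl fun i _ => by rw [← pow_mul]
        rw [h4, norm_neg]
        exact hC s hs) i
    simp only [norm_pow] at h2
    exact Real.le_sqrt_of_sq_le h2
  rw [hα j hj, norm_neg]
  refine (norm_sum_le _ _).trans ?_
  have h3 : ∀ i ∈ (Finset.univ : Finset (Fin (M.natDegree - 1))), ‖α i ^ j‖ ≤
      Real.sqrt (Fintype.card F) ^ j := fun i _ => by
    rw [norm_pow]
    exact pow_le_pow_left₀ (norm_nonneg _) (h1 i) j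
  refine (Finset.sum_le_sum h3).trans ?_
  rw [Finset.sum_const, nsmul_eq_mul, Finset.card_univ, Fintype.card_fin]
  refine mul_le_mul_of_nonneg_right ?_ (pow_nonneg (Real.sqrt_nonneg _) j)
  exact_mod_cast Nat.sub_le _ _

end Pool.RN
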