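import Pool.Agent.H48.RN.Stmts3

/-!
# Project RN, module TRV: the trivial bound
-/

set_option autoImplicit false

namespace Pool.RN

open Polynomial

theorem s_TRV (F : Type) [Field F] [Fintype F] (hPRC : S_PRC F) : S_TRV F := by
  intro ψ hψ j hj
  have h1 : ‖aa ψ j‖ ≤ ∑ d ∈ j.divisors, ∑ P ∈ Irr F d, (d : ℝ) := by
    rw [aa]
    refine (norm_sum_le _ _).trans (Finset.sum_le_sum fun d _ => (norm_sum_le _ _).trans
      (Finset.sum_le_sum fun P _ => ?_))
    rw [norm_mul, Complex.norm_natCast, norm_pow]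
    exact mul_le_of_le_one_right (Nat.cast_nonneg d) (pow_le_one₀ (norm_nonneg _) (hψ P))
  refine h1.trans (le_of_eq ?_)
  have h2 := hPRC j hj
  have h3 : ((∑ d ∈ j.divisors, d * (Irr F d).card : ℕ) : ℝ) = (Fintype.card F : ℝ) ^ j := by
    rw [h2]; push_cast; rfl
  rw [← h3]
  push_cast
  refine Finset.sum_congr rfl fun d _ => ?_
  rw [Finset.sum_const, nsmul_eq_mul, mul_comm]

end Pool.RN
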